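import Mathlib
import Pool.Agent.SB.Frames
import Pool.Agent.SB.Homot
import Pool.Agent.CC57.Brouwer

set_option autoImplicit false

/-!
# H64D/Surj : surjectivity of the lifts (only Brouwer's theorem is needed)
-/

namespace Pool.Agent.H64D

open Set Metric Pool.Agent.SB

/-- a vector field on a ball that does not point inwards on the boundary has a zero -/
theorem zero_of_outward {k : ℕ} {r : ℝ} (hr : 0 < r) {V : E k → E k}
    (hV : ContinuousOn V (closedBall 0 r)) (hb : ∀ w, ‖w‖ = r → 0 ≤ inner ℝ w (V w)) :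
    ∃ w ∈ closedBall (0 : E k) r, V w = 0 := by
  by_contra hcon
  push Not at hcon
  have hc : ContinuousOn (fun w => -(r / ‖V w‖) • V w) (closedBall (0 : E k) r) := by
    have h1 : ContinuousOn (fun w => -(r / ‖V w‖)) (closedBall (0 : E k) r) := by
      refine (continuousOn_const.div hV.norm fun w hw => ?_).neg
      exact norm_ne_zero_iff.2 (hcon w hw)
    exact h1.smul hV
  have hn : ∀ w ∈ closedBall (0 : E k) r, ‖-(r / ‖V w‖) • V w‖ = r := by
    intro w hw
    have h1 : ‖V w‖ ≠ 0 := norm_ne_zero_iff.2 (hcon w hw)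
    rw [norm_smul, norm_neg, Real.norm_eq_abs, abs_of_nonneg (by positivity)]
    field_simp
  obtain ⟨w, hw, hfix⟩ := Pool.Agent.CC57.brouwer_ball hr.le hc (fun w hw => by
    rw [mem_closedBall_zero_iff, hn w hw])
  have hwr : ‖w‖ = r := by
    rw [← hn w hw]
    exact congrArg norm hfix.symm
  have h1 := hb w hwr
  have hVp : 0 < ‖V w‖ := norm_pos_iff.2 (hcon w hw)
  have h2 : inner ℝ w (V w) = -(r * ‖V w‖) := by
    have h3 : inner ℝ (-(r / ‖V w‖) • V w) (V w) = -(r * ‖V w‖) := by
      rw [real_inner_smul_left, real_inner_self_eq_norm_sq]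
      field_simp
    rw [hfix] at h3
    exact h3
  have h4 : 0 < r * ‖V w‖ := by positivity
  linarith

/-- a linear isometry onto the orthogonal complement -/
theorem exists_orth {k : ℕ} (e : E (k + 1)) (he : e ≠ 0) :
    ∃ F : E k →ₗᵢ[ℝ] E (k + 1), (∀ w, inner ℝ e (F w) = 0) ∧
      ∀ g, inner ℝ e g = 0 → ∃ w, F w = g := by
  have : Fact (Module.finrank ℝ (E (k + 1)) = k + 1) := ⟨by simp⟩
  set b := OrthonormalBasis.fromOrthogonalSpanSingleton (𝕜 := ℝ) k he with hb
  refine ⟨(ℝ ∙ e)ᗮ.subtypeₗᵢ.comp b.repr.symm.toLinearIsometry, fun w => ?_, fun g hg => ?_⟩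
  · have h1 := (b.repr.symm w).2
    exact (Submodule.mem_orthogonal_singleton_iff_inner_right.1 h1)
  · refine ⟨b.repr ⟨g, Submodule.mem_orthogonal_singleton_iff_inner_right.2 hg⟩, ?_⟩
    simp

/-- the centre direction is attained -/
theorem surj_core {k : ℕ} (e : E (k + 1)) (he : ‖e‖ = 1) (F : E k →ₗᵢ[ℝ] E (k + 1))
    (hF0 : ∀ w, inner ℝ e (F w) = 0) (hF1 : ∀ g, inner ℝ e g = 0 → ∃ w, F w = g)
    (g : E k → E (k + 1)) (hg : ContinuousOn g (closedBall 0 2))
    (hne : ∀ w ∈ closedBall (0 : E k) 2, g w ≠ 0)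
    (horth : ∀ w ∈ closedBall (0 : E k) 2, inner ℝ ((‖w‖ ^ 2 - 1) • e + F w) (g w) = 0) :
    ∃ w ∈ closedBall (0 : E k) 2, ∃ s : ℝ, 0 < s ∧ g w = -s • e := by
  set P : E (k + 1) →L[ℝ] E k := ContinuousLinearMap.adjoint F.toContinuousLinearMap with hP
  have hPF : ∀ w y, inner ℝ w (P y) = inner ℝ (F w) y := fun w y =>
    ContinuousLinearMap.adjoint_inner_right _ _ _
  set a : E k → ℝ := fun w => inner ℝ e (g w) with ha
  have hac : ContinuousOn a (closedBall 0 2) := (innerSL ℝ e).continuous.comp_continuousOn hg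
  have ho : ∀ w ∈ closedBall (0 : E k) 2, (‖w‖ ^ 2 - 1) * a w + inner ℝ w (P (g w)) = 0 := by
    intro w hw
    have h := horth w hw
    rw [inner_add_left, real_inner_smul_left] at h
    rw [hPF]
    exact h
  obtain ⟨w, hw, hVw⟩ := zero_of_outward (r := 2) (by norm_num)
    (V := fun w => P (g w) + max (a w) 0 • w)
    ((P.continuous.comp_continuousOn hg).add
      ((hac.sup continuousOn_const).smul continuousOn_id)) (by
      intro w hw
      have hw2 : w ∈ closedBall (0 : E k) 2 := by rw [mem_closedBall_zero_iff, hw]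
      have h := ho w hw2
      rw [inner_add_right, real_inner_smul_right, real_inner_self_eq_norm_sq, hw]
      rw [hw] at h
      have h1 : a w ≤ max (a w) 0 := le_max_left _ _
      have h2 : 0 ≤ max (a w) 0 := le_max_right _ _
      nlinarith)
  have hVw' : P (g w) + max (a w) 0 • w = 0 := hVw
  have haw : a w ≤ 0 := by
    by_contra hpos
    push Not at hpos
    rw [max_eq_left hpos.le] at hVw'
    have h1 : P (g w) = -(a w • w) := eq_neg_of_add_eq_zero_left hVw'
    have h2 := ho w hw
    rw [h1, inner_neg_right, real_inner_smul_right, real_inner_self_eq_norm_sq] at h2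
    nlinarith
  have hPg : P (g w) = 0 := by
    rw [max_eq_right haw, zero_smul, add_zero] at hVw'
    exact hVw'
  -- the component orthogonal to `e` vanishes
  have hge : g w = a w • e := by
    obtain ⟨z, hz⟩ := hF1 (g w - a w • e) (by
      rw [inner_sub_right, real_inner_smul_right, real_inner_self_eq_norm_sq, he]
      simp only [ha]
      ring)
    have h1 : inner ℝ (F z) (g w) = 0 := by rw [← hPF, hPg, inner_zero_right]
    have h2 : inner ℝ (F z) (F z) = 0 := by
      nth_rewrite 2 [hz]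
      rw [inner_sub_right, h1, real_inner_smul_right, real_inner_comm, hF0]
      ring
    have h3 : F z = 0 := inner_self_eq_zero.1 h2
    rw [h3] at hz
    exact (sub_eq_zero.1 hz.symm)
  have hneg : a w < 0 := by
    refine lt_of_le_of_ne haw fun h0 => hne w hw ?_
    rw [hge, h0, zero_smul]
  exact ⟨w, hw, -a w, by linarith, by rw [neg_neg]; exact hge⟩

/-- frontier points of the model are mapped into the frontier -/
theorem frontier_eq {k n : ℕ} {f : E n → ℝ} (hfc : Continuous f) {K : Set (E k)}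
    {A : E k →L[ℝ] E n} {c : E n} (hA : ∀ v, f (A v + c) ≤ 1 ↔ v ∈ K) {x : E k}
    (hx : x ∈ frontier K) : f (A x + c) = 1 := by
  have hcont : Continuous fun v => f (A v + c) := hfc.comp (A.continuous.add continuous_const)
  have h1 : x ∈ {v | f (A v + c) ≤ 1} := by
    have hcl : IsClosed {v | f (A v + c) ≤ 1} := isClosed_le hcont continuous_const
    exact closure_minimal (fun v hv => (hA v).2 hv) hcl (frontier_subset_closure hx)
  have h2 : x ∈ {v | 1 ≤ f (A v + c)} := by
    have hcl : IsClosed {v | 1 ≤ f (A v + c)} := isClosed_le continuous_const hcont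
    refine closure_minimal (s := Kᶜ) (fun v hv => ?_) hcl ?_
    · exact (not_le.1 fun h => hv ((hA v).1 h)).le
    · rw [closure_compl]
      exact fun h => hx.2 h
  exact le_antisymm h1 h2

/-- surjectivity: the boundary point `x` of the model is moved to any boundary point `y` by one of
the maps over the disc centred at the direction of `y` -/
theorem surj_lift {k : ℕ} {f : E (k + 1) → ℝ} (hfc : Continuous f)
    (hhom : ∀ (s : ℝ) (y : E (k + 1)), 0 ≤ s → f (s • y) = s * f y)
    {y : E (k + 1)} (hy : f y = 1) (F : E k →ₗᵢ[ℝ] E (k + 1))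
    (hF0 : ∀ w, inner ℝ y (F w) = 0) (hF1 : ∀ g, inner ℝ y g = 0 → ∃ w, F w = g)
    {K : Set (E k)} (A : E k → E k →L[ℝ] E (k + 1)) (c : E k → E (k + 1))
    (hAc : ContinuousOn A (closedBall 0 2)) (hcc : ContinuousOn c (closedBall 0 2))
    (hAn : ∀ w ∈ closedBall (0 : E k) 2, ∀ v,
      inner ℝ ((‖w‖ ^ 2 - 1) • (-(‖y‖⁻¹ • y)) + F w) (A w v) = 0)
    (hcn : ∀ w ∈ closedBall (0 : E k) 2,
      inner ℝ ((‖w‖ ^ 2 - 1) • (-(‖y‖⁻¹ • y)) + F w) (c w) = 0)
    (hK : ∀ w ∈ closedBall (0 : E k) 2, ∀ v, f (A w v + c w) ≤ 1 ↔ v ∈ K)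
    {x : E k} (hx : x ∈ frontier K) :
    ∃ w ∈ closedBall (0 : E k) 2, A w x + c w = y := by
  have hf0 : f 0 = 0 := by
    have h := hhom 0 0 le_rfl
    simpa using h
  have hy0 : y ≠ 0 := by
    rintro rfl
    rw [hf0] at hy
    exact zero_ne_one hy
  have hyp : 0 < ‖y‖ := norm_pos_iff.2 hy0
  set e : E (k + 1) := -(‖y‖⁻¹ • y) with he
  have hen : ‖e‖ = 1 := by
    rw [he, norm_neg, norm_smul, norm_inv, norm_norm]
    exact inv_mul_cancel₀ hyp.ne'
  have hf1 : ∀ w ∈ closedBall (0 : E k) 2, f (A w x + c w) = 1 := fun w hw =>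
    frontier_eq hfc (hK w hw) hx
  obtain ⟨w, hw, s, hs, hws⟩ := surj_core e hen F (fun w => by
      rw [he, inner_neg_left, real_inner_smul_left, hF0 w]; simp) (fun g hg => hF1 g (by
      rw [he, inner_neg_left, real_inner_smul_left] at hg
      have h1 : ‖y‖⁻¹ * inner ℝ y g = 0 := by linarith
      rcases mul_eq_zero.1 h1 with h | h
      · exact absurd h (inv_ne_zero hyp.ne')
      · exact h))
    (fun w => A w x + c w) ((hAc.clm_apply continuousOn_const).add hcc)
    (fun w hw h0 => by
      have h := hf1 w hw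
      rw [show A w x + c w = 0 from h0, hf0] at h
      exact zero_ne_one h)
    (fun w hw => by
      rw [inner_add_right, hAn w hw, hcn w hw, add_zero])
  refine ⟨w, hw, ?_⟩
  have h1 : A w x + c w = (s * ‖y‖⁻¹) • y := by
    rw [show A w x + c w = -s • e from hws, he, smul_neg, neg_smul, neg_neg, smul_smul]
  have h2 := hf1 w hw
  rw [h1, hhom _ _ (by positivity), hy, mul_one] at h2
  rw [h1, h2, one_smul]

end Pool.Agent.H64D
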