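import Mathlib

/-!
# H64D/Deg : homotopy invariance of `∫ φ(H) det DH`
-/

namespace Pool.Agent.H64D

open MeasureTheory Set
open scoped ContDiff Manifold

variable {E : Type*} [NormedAddCommGroup E] [NormedSpace ℝ E] [FiniteDimensional ℝ E]

theorem cutoff {Ω K : Set E} (hΩ : IsOpen Ω) (hK : IsCompact K) (hKΩ : K ⊆ Ω) :
    ∃ χ : E → ℝ, ContDiff ℝ ∞ χ ∧ (∀ z, 0 ≤ χ z ∧ χ z ≤ 1) ∧ (∀ z ∈ K, χ z = 1) ∧
      HasCompactSupport χ ∧ tsupport χ ⊆ Ω := by
  obtain ⟨L, hL, hKL, hLΩ⟩ := exists_compact_between hK hΩ hKΩ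
  obtain ⟨f, hf0, hf1, hf⟩ := exists_contMDiffMap_zero_one_of_isClosed (n := ⊤) 𝓘(ℝ, E)
    (s := (interior L)ᶜ) (t := K) isOpen_interior.isClosed_compl hK.isClosed
    (Set.disjoint_left.2 fun x hx hxK => hx (hKL hxK))
  have hsupp : Function.support f ⊆ L := by
    intro x hx
    by_contra h
    exact hx (hf0 (x := x) fun h' => h (interior_subset h'))
  have hts : tsupport f ⊆ L := closure_minimal hsupp hL.isClosed
  refine ⟨f, f.contMDiff.contDiff, fun z => hf z, fun z hz => hf1 hz,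
    HasCompactSupport.intro hL fun x hx => ?_, hts.trans hLΩ⟩
  by_contra h
  exact hx (hsupp h)

variable {n : ℕ}

/-- the determinant of a basis as a continuous alternating map -/
noncomputable def vol (b : Module.Basis (Fin n) ℝ E) : E [⋀^Fin n]→L[ℝ] ℝ :=
  { b.det with
    cont := by
      have : Continuous fun v : Fin n → E => (b.toMatrix v).det := by
        refine Continuous.matrix_det ?_
        refine continuous_matrix fun i j => ?_
        have h : Continuous fun x : E => b.repr x i :=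
          (LinearMap.continuous_of_finiteDimensional (b.coord i))
        exact h.comp (continuous_apply j)
      exact this }

theorem vol_apply (b : Module.Basis (Fin n) ℝ E) (v : Fin n → E) : vol b v = b.det v := rfl


theorem top_zero (b : Module.Basis (Fin n) ℝ E) (ψ : E [⋀^Fin (n + 1)]→L[ℝ] ℝ) : ψ = 0 := by
  ext v
  have h : ¬ LinearIndependent ℝ v := by
    intro h
    have h1 := h.fintype_card_le_finrank
    rw [Module.finrank_eq_card_basis b, Fintype.card_fin, Fintype.card_fin] at h1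
    omega
  exact ψ.toAlternatingMap.map_linearDependent v h

/-- the pull back of `φ vol` to `ℝ × E` -/
noncomputable def eta (b : Module.Basis (Fin n) ℝ E) (φ : E → ℝ) (G : ℝ × E → E) (q : ℝ × E) :
    (ℝ × E) [⋀^Fin n]→L[ℝ] ℝ :=
  (φ (G q) • vol b).compContinuousLinearMap (fderiv ℝ G q)

theorem eta_apply (b : Module.Basis (Fin n) ℝ E) (φ : E → ℝ) (G : ℝ × E → E) (q : ℝ × E)
    (v : Fin n → ℝ × E) :
    eta b φ G q v = φ (G q) * b.det (fun i => fderiv ℝ G q (v i)) := rfl

theorem contDiff_det {X : Type*} [NormedAddCommGroup X] [NormedSpace ℝ X] {r : WithTop ℕ∞}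
    (b : Module.Basis (Fin n) ℝ E) {g : Fin n → X → E} (hg : ∀ i, ContDiff ℝ r (g i)) :
    ContDiff ℝ r (fun x => b.det (fun i => g i x)) := by
  have h : (fun x => b.det (fun i => g i x)) = fun x => ∑ σ : Equiv.Perm (Fin n),
      ((Equiv.Perm.sign σ : ℤ) : ℝ) * ∏ i, b.repr (g i x) (σ i) := by
    funext x
    rw [Module.Basis.det_apply, Matrix.det_apply']
    rfl
  rw [h]
  refine ContDiff.sum fun σ _ => contDiff_const.mul ?_
  refine contDiff_prod fun i _ => ?_
  have hc : Continuous fun y : E => b.repr y (σ i) :=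
    LinearMap.continuous_of_finiteDimensional (b.coord (σ i))
  exact ((⟨b.coord (σ i), hc⟩ : E →L[ℝ] ℝ).contDiff).comp (hg i)

theorem contDiff_eta (b : Module.Basis (Fin n) ℝ E) {φ : E → ℝ} (hφ : ContDiff ℝ 1 φ)
    {G : ℝ × E → E} (hG : ContDiff ℝ 2 G) (v : Fin n → ℝ × E) :
    ContDiff ℝ 1 (fun q => eta b φ G q v) := by
  have h1 : ContDiff ℝ 1 (fderiv ℝ G) := hG.fderiv_right (by norm_num)
  have h2 : (fun q => eta b φ G q v) =
      fun q => φ (G q) * b.det (fun i => fderiv ℝ G q (v i)) := rfl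
  rw [h2]
  exact (hφ.comp (hG.of_le (by norm_num))).mul
    (contDiff_det b fun i => h1.clm_apply contDiff_const)

theorem eta_closed (b : Module.Basis (Fin n) ℝ E) {φ : E → ℝ} (hφ : ContDiff ℝ 1 φ)
    {G : ℝ × E → E} (hG : ContDiff ℝ 2 G) (q : ℝ × E) (v : Fin (n + 1) → ℝ × E) :
    ∑ i : Fin (n + 1), (-1) ^ (i : ℕ) • fderiv ℝ (fun q => eta b φ G q (i.removeNth v)) q (v i)
      = 0 := by
  have hω : Differentiable ℝ (fun y : E => φ y • vol b) :=
    (hφ.differentiable (by norm_num)).smul_const (vol b)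
  have hG1 : ContDiff ℝ 1 (fderiv ℝ G) := hG.fderiv_right (by norm_num)
  have hη : DifferentiableAt ℝ (eta b φ G) q := by
    unfold eta
    exact DifferentiableAt.continuousAlternatingMapCompContinuousLinearMap
      ((hω (G q)).comp q (hG.differentiable (by norm_num) q))
      (hG1.differentiable (by norm_num) q)
  rw [← extDeriv_apply hη v]
  have h1 : extDeriv (eta b φ G) q =
      (extDeriv (fun y : E => φ y • vol b) (G q)).compContinuousLinearMap (fderiv ℝ G q) :=
    extDeriv_pullback (hω (G q)) hG.contDiffAt (by simp)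
  rw [h1, top_zero b (extDeriv (fun y : E => φ y • vol b) (G q))]
  rfl


omit [FiniteDimensional ℝ E] in
theorem fderiv_slice {F : Type*} [NormedAddCommGroup F] [NormedSpace ℝ F] {G : ℝ × E → F}
    {t : ℝ} {z : E} (hG : DifferentiableAt ℝ G (t, z)) (v : E) :
    fderiv ℝ G (t, z) (0, v) = fderiv ℝ (fun z => G (t, z)) z v := by
  have h1 : HasFDerivAt (fun z : E => (t, z)) (ContinuousLinearMap.inr ℝ ℝ E) z :=
    hasFDerivAt_prodMk_right t z
  have h2 : HasFDerivAt (fun z => G (t, z))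
      ((fderiv ℝ G (t, z)).comp (ContinuousLinearMap.inr ℝ ℝ E)) z :=
    HasFDerivAt.comp z hG.hasFDerivAt h1
  rw [h2.fderiv]
  rfl

omit [FiniteDimensional ℝ E] in
theorem deriv_slice {G : ℝ × E → ℝ} {t : ℝ} {z : E} (hG : DifferentiableAt ℝ G (t, z)) :
    HasDerivAt (fun t => G (t, z)) (fderiv ℝ G (t, z) (1, 0)) t := by
  have h1 : HasFDerivAt (fun t : ℝ => (t, z)) (ContinuousLinearMap.inl ℝ ℝ E) t :=
    hasFDerivAt_prodMk_left t z
  have h2 : HasFDerivAt (fun t => G (t, z))
      ((fderiv ℝ G (t, z)).comp (ContinuousLinearMap.inl ℝ ℝ E)) t :=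
    HasFDerivAt.comp t hG.hasFDerivAt h1
  exact h2.hasDerivAt

theorem eta_slice (b : Module.Basis (Fin n) ℝ E) (φ : E → ℝ) {G : ℝ × E → E}
    (hG : ContDiff ℝ 2 G) (t : ℝ) (z : E) :
    eta b φ G (t, z) (fun j => ((0 : ℝ), b j)) =
      φ (G (t, z)) * (fderiv ℝ (fun z => G (t, z)) z).det := by
  rw [eta_apply]
  congr 1
  have h2 : (fun i => fderiv ℝ G (t, z) ((0 : ℝ), b i)) =
      ((fderiv ℝ (fun z => G (t, z)) z : E →L[ℝ] E) : E →ₗ[ℝ] E) ∘ b := by
    funext i
    exact fderiv_slice (hG.differentiable (by norm_num) _) (b i)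
  rw [h2, Module.Basis.det_comp, Module.Basis.det_self, mul_one]

variable [MeasurableSpace E] [BorelSpace E]

theorem div_zero (μ : Measure E) [μ.IsAddHaarMeasure] (b : Module.Basis (Fin n) ℝ E) {φ : E → ℝ}
    (hφ : ContDiff ℝ 1 φ) {G : ℝ × E → E} (hG : ContDiff ℝ 2 G) {χ : E → ℝ}
    (hχ : ContDiff ℝ ∞ χ) (hχc : HasCompactSupport χ) {t : ℝ}
    (h0 : ∀ z, φ (G (t, z)) ≠ 0 → fderiv ℝ χ z = 0) :
    ∫ z, χ z * fderiv ℝ (fun q => eta b φ G q (fun j => ((0 : ℝ), b j))) (t, z) (1, 0) ∂μ = 0 := by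
  set v : Fin (n + 1) → ℝ × E := Fin.cons (1, 0) (fun j => ((0 : ℝ), b j)) with hv
  have hW : ∀ i : Fin (n + 1), ContDiff ℝ 1 (fun q => eta b φ G q (i.removeNth v)) := fun i =>
    contDiff_eta b hφ hG _
  have hWt : ∀ i : Fin (n + 1), ContDiff ℝ 1 (fun z => eta b φ G (t, z) (i.removeNth v)) :=
    fun i => (hW i).comp (contDiff_const.prodMk contDiff_id)
  have hχ1 : ContDiff ℝ 1 χ := hχ.of_le (by exact_mod_cast le_top)
  have hrem0 : (0 : Fin (n + 1)).removeNth v = fun j => ((0 : ℝ), b j) := by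
    funext j
    rfl
  have hterm : ∀ j : Fin n, ∫ z, χ z * fderiv ℝ (fun q => eta b φ G q
      ((Fin.succ j).removeNth v)) (t, z) (0, b j) ∂μ = 0 := by
    intro j
    have e1 : ∀ z, fderiv ℝ (fun q => eta b φ G q ((Fin.succ j).removeNth v)) (t, z) (0, b j) =
        fderiv ℝ (fun z => eta b φ G (t, z) ((Fin.succ j).removeNth v)) z (b j) := fun z =>
      fderiv_slice ((hW (Fin.succ j)).differentiable (by norm_num) _) (b j)
    simp_rw [e1]
    have c1 : Continuous fun z => fderiv ℝ χ z (b j) :=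
      (hχ1.continuous_fderiv (by norm_num)).clm_apply continuous_const
    have c2 : Continuous fun z => fderiv ℝ (fun z => eta b φ G (t, z)
        ((Fin.succ j).removeNth v)) z (b j) :=
      ((hWt (Fin.succ j)).continuous_fderiv (by norm_num)).clm_apply continuous_const
    have c3 : Continuous fun z => eta b φ G (t, z) ((Fin.succ j).removeNth v) :=
      (hWt (Fin.succ j)).continuous
    have s1 : HasCompactSupport fun z => fderiv ℝ χ z (b j) := by
      have := hχc.fderiv (𝕜 := ℝ)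
      exact this.comp_left (g := fun L : E →L[ℝ] ℝ => L (b j)) rfl
    rw [integral_mul_fderiv_eq_neg_fderiv_mul_of_integrable
      ((c1.mul c3).integrable_of_hasCompactSupport s1.mul_right)
      ((hχ.continuous.mul c2).integrable_of_hasCompactSupport hχc.mul_right)
      ((hχ.continuous.mul c3).integrable_of_hasCompactSupport hχc.mul_right)
      (fun z _ => hχ1.differentiable (by norm_num) z)
      (fun z _ => (hWt (Fin.succ j)).differentiable (by norm_num) z)]
    have : ∀ z, fderiv ℝ χ z (b j) * eta b φ G (t, z) ((Fin.succ j).removeNth v) = 0 := by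
      intro z
      by_cases hz : φ (G (t, z)) = 0
      · rw [eta_apply, hz, zero_mul, mul_zero]
      · rw [h0 z hz]
        simp
    simp [this]
  have hall : ∀ z, χ z * fderiv ℝ (fun q => eta b φ G q (fun j => ((0 : ℝ), b j))) (t, z) (1, 0) =
      ∑ j : Fin n, -((-1 : ℝ) ^ ((Fin.succ j : Fin (n + 1)) : ℕ)) *
        (χ z * fderiv ℝ (fun q => eta b φ G q ((Fin.succ j).removeNth v)) (t, z) (0, b j)) := by
    intro z
    have h := eta_closed b hφ hG (t, z) v
    rw [Fin.sum_univ_succ, hrem0] at h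
    have hv0 : v 0 = ((1 : ℝ), (0 : E)) := rfl
    have hvs : ∀ j : Fin n, v (Fin.succ j) = ((0 : ℝ), b j) := fun j => rfl
    rw [hv0] at h
    simp only [hvs, Fin.val_zero, pow_zero, one_smul] at h
    have h2 : fderiv ℝ (fun q => eta b φ G q (fun j => ((0 : ℝ), b j))) (t, z) (1, 0) =
        -∑ j : Fin n, ((-1 : ℝ) ^ ((Fin.succ j : Fin (n + 1)) : ℕ)) *
          fderiv ℝ (fun q => eta b φ G q ((Fin.succ j).removeNth v)) (t, z) (0, b j) := by
      rw [eq_neg_iff_add_eq_zero]
      refine Eq.trans ?_ h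
      congr 1
      refine Finset.sum_congr rfl fun j _ => ?_
      rw [zsmul_eq_mul]
      push_cast
      rfl
    rw [h2, mul_neg, Finset.mul_sum, ← Finset.sum_neg_distrib]
    refine Finset.sum_congr rfl fun j _ => ?_
    ring
  simp_rw [hall]
  rw [integral_finsetSum]
  · refine Finset.sum_eq_zero fun j _ => ?_
    rw [integral_const_mul, hterm j, mul_zero]
  · intro j _
    refine Integrable.const_mul ?_ _
    have c2 : Continuous fun z : E => fderiv ℝ (fun q => eta b φ G q
        ((Fin.succ j).removeNth v)) (t, z) (0, b j) :=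
      (((hW (Fin.succ j)).continuous_fderiv (by norm_num)).comp
        (continuous_const.prodMk continuous_id)).clm_apply continuous_const
    exact (hχ.continuous.mul c2).integrable_of_hasCompactSupport hχc.mul_right

/-- homotopy invariance of the degree integral -/
theorem deg_homotopy (μ : Measure E) [μ.IsAddHaarMeasure] {H : ℝ → E → E}
    (hH : ContDiff ℝ 2 (fun q : ℝ × E => H q.1 q.2)) {φ : E → ℝ} (hφ : ContDiff ℝ 1 φ)
    {Ω K : Set E} (hΩ : IsOpen Ω) (hK : IsCompact K) (hKΩ : K ⊆ Ω)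
    (hs : ∀ t ∈ Set.Icc (0 : ℝ) 1, ∀ z ∈ Ω, φ (H t z) ≠ 0 → z ∈ K) :
    ∫ z in Ω, φ (H 0 z) * (fderiv ℝ (H 0) z).det ∂μ =
      ∫ z in Ω, φ (H 1 z) * (fderiv ℝ (H 1) z).det ∂μ := by
  obtain ⟨χ, hχ, hχ01, hχK, hχc, hχΩ⟩ := cutoff hΩ hK hKΩ
  set b := Module.finBasis ℝ E with hb
  set G : ℝ × E → E := fun q => H q.1 q.2 with hG
  set U : ℝ × E → ℝ := fun q => eta b φ G q (fun j => ((0 : ℝ), b j)) with hU
  have hUs : ContDiff ℝ 1 U := contDiff_eta b hφ hH _
  have hUe : ∀ t z, U (t, z) = φ (H t z) * (fderiv ℝ (H t) z).det := fun t z =>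
    eta_slice b φ hH t z
  have hχ1 : ContDiff ℝ 1 χ := hχ.of_le (by exact_mod_cast le_top)
  -- the cutoff does not change the integral
  have hcut : ∀ t ∈ Set.Icc (0 : ℝ) 1, ∫ z in Ω, φ (H t z) * (fderiv ℝ (H t) z).det ∂μ =
      ∫ z, χ z * U (t, z) ∂μ := by
    intro t ht
    rw [← setIntegral_eq_integral_of_forall_compl_eq_zero (s := Ω)
      (f := fun z => χ z * U (t, z))]
    · refine setIntegral_congr_fun hΩ.measurableSet fun z hz => ?_
      show φ (H t z) * (fderiv ℝ (H t) z).det = χ z * U (t, z)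
      rw [hUe]
      by_cases h : φ (H t z) = 0
      · rw [h]; ring
      · rw [hχK z (hs t ht z hz h), one_mul]
    · intro z hz
      rw [image_eq_zero_of_notMem_tsupport (fun h => hz (hχΩ h)), zero_mul]
  have hder : ∀ t ∈ Set.Icc (0 : ℝ) 1, ∀ z, φ (G (t, z)) ≠ 0 → fderiv ℝ χ z = 0 := by
    intro t ht z hz
    by_cases hzΩ : z ∈ Ω
    · have h1 := hχK z (hs t ht z hzΩ hz)
      have h2 : IsLocalMax χ z := Filter.Eventually.of_forall fun y => by
        rw [h1]; exact (hχ01 y).2
      exact h2.fderiv_eq_zero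
    · have h1 : z ∉ tsupport χ := fun h => hzΩ (hχΩ h)
      by_contra h
      exact h1 (support_fderiv_subset ℝ h)
  set D : ℝ → E → ℝ := fun t z => χ z * fderiv ℝ U (t, z) (1, 0) with hD
  have hDc : Continuous (Function.uncurry D) := by
    have c1 : Continuous fun q : ℝ × E => fderiv ℝ U q ((1 : ℝ), (0 : E)) :=
      (hUs.continuous_fderiv (by norm_num)).clm_apply continuous_const
    exact (hχ.continuous.comp continuous_snd).mul c1
  have hzero : ∀ t ∈ Set.Icc (0 : ℝ) 1, ∫ z, D t z ∂μ = 0 := fun t ht =>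
    div_zero μ b hφ hH hχ hχc (hder t ht)
  have hint : Integrable (Function.uncurry D) ((volume.restrict (Set.uIoc (0 : ℝ) 1)).prod μ) := by
    have : ProperSpace E := FiniteDimensional.proper ℝ E
    have h1 : IntegrableOn (Function.uncurry D) (Set.Icc (0 : ℝ) 1 ×ˢ tsupport χ)
        (volume.prod μ) :=
      hDc.continuousOn.integrableOn_compact (isCompact_Icc.prod hχc)
    have h2 : IntegrableOn (Function.uncurry D) (Set.uIoc (0 : ℝ) 1 ×ˢ Set.univ)
        (volume.prod μ) := by
      refine h1.of_forall_sdiff_eq_zero ?_ ?_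
      · exact measurableSet_uIoc.prod MeasurableSet.univ
      · rintro ⟨t, z⟩ ⟨ht, hz⟩
        have ht' : t ∈ Set.Icc (0 : ℝ) 1 := by
          have := ht.1
          rw [Set.uIoc_of_le zero_le_one] at this
          exact ⟨this.1.le, this.2⟩
        have hz' : z ∉ tsupport χ := fun h => hz ⟨ht', h⟩
        show χ z * fderiv ℝ U (t, z) (1, 0) = 0
        rw [image_eq_zero_of_notMem_tsupport hz', zero_mul]
    have h3 : (volume.restrict (Set.uIoc (0 : ℝ) 1)).prod μ =
        (volume.prod μ).restrict (Set.uIoc (0 : ℝ) 1 ×ˢ Set.univ) := by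
      rw [← Measure.prod_restrict, Measure.restrict_univ]
    rw [h3]
    exact h2
  have hswap := intervalIntegral_integral_swap hint
  have hFTC : ∀ z, ∫ t in (0 : ℝ)..1, D t z = χ z * U (1, z) - χ z * U (0, z) := by
    intro z
    have h1 : ∀ t ∈ Set.uIcc (0 : ℝ) 1, HasDerivAt (fun t => χ z * U (t, z)) (D t z) t := by
      intro t _
      exact (deriv_slice (hUs.differentiable (by norm_num) (t, z))).const_mul (χ z)
    refine intervalIntegral.integral_eq_sub_of_hasDerivAt h1 ?_
    exact (hDc.comp (continuous_id.prodMk continuous_const)).intervalIntegrable _ _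
  have hI : ∀ t, Integrable (fun z => χ z * U (t, z)) μ := by
    intro t
    have c : Continuous fun z => U (t, z) :=
      hUs.continuous.comp (continuous_const.prodMk continuous_id)
    exact (hχ.continuous.mul c).integrable_of_hasCompactSupport hχc.mul_right
  have hfin : ∫ z, χ z * U (1, z) ∂μ - ∫ z, χ z * U (0, z) ∂μ = 0 := by
    rw [← integral_sub (hI 1) (hI 0)]
    simp_rw [← hFTC]
    rw [← hswap]
    rw [intervalIntegral.integral_of_le zero_le_one]
    refine setIntegral_eq_zero_of_forall_eq_zero fun t ht => ?_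
    exact hzero t ⟨ht.1.le, ht.2⟩
  rw [hcut 0 ⟨le_rfl, zero_le_one⟩, hcut 1 ⟨zero_le_one, le_rfl⟩]
  linarith

end Pool.Agent.H64D
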